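import Pool.Agent.ARC.Stmts
import Pool.Agent.Helper76_SZG.FDF

/-!
# Row SUP of squad ARC: the sup bound of theta functions
-/

set_option autoImplicit false

namespace Pool.Agent.ARC.H25

open scoped BigOperators
open Pool.Agent.THS Pool.Agent.ARC
open Pool.Agent.SZG (Ch)

variable {g : ℕ}

/-- the point `u + tau y` -/
noncomputable def xx (τ : Matrix (Fin g) (Fin g) ℂ) (u y : Fin g → ℝ) : Fin g → ℂ :=
  fun i => (u i : ℂ) + ∑ j, τ i j * (y j : ℂ)

/-- the normalised absolute value -/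
noncomputable def FC (τ : Matrix (Fin g) (Fin g) ℂ) (c : Ch g) (u y : Fin g → ℝ) : ℝ :=
  ‖Thc τ c (xx τ u y)‖ * Real.exp (-(2 * Real.pi * Yq τ y))

theorem xx_im (τ : Matrix (Fin g) (Fin g) ℂ) (u y : Fin g → ℝ) (i : Fin g) :
    (xx τ u y i).im = Yv τ y i := by
  simp [xx, Yv, Complex.add_im, Complex.im_sum, Complex.mul_im]

theorem yq_eq (τ : Matrix (Fin g) (Fin g) ℂ) (y : Fin g → ℝ) :
    Yq τ y = ∑ i, y i * Yv τ y i := by
  simp only [Yq, Yv, Finset.mul_sum, mul_assoc]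

theorem yv_add (τ : Matrix (Fin g) (Fin g) ℂ) (y q : Fin g → ℝ) (i : Fin g) :
    Yv τ (y + q) i = Yv τ y i + Yv τ q i := by
  simp only [Yv, Pi.add_apply, mul_add, Finset.sum_add_distrib]

theorem yv_symm {τ : Matrix (Fin g) (Fin g) ℂ} (hτ : Siegel τ) (y q : Fin g → ℝ) :
    ∑ i, y i * Yv τ q i = ∑ i, q i * Yv τ y i := by
  simp only [Yv, Finset.mul_sum]
  rw [Finset.sum_comm]
  refine Finset.sum_congr rfl fun i _ => Finset.sum_congr rfl fun j _ => ?_
  have h1 : τ j i = τ i j := congrFun (congrFun hτ.1 i) j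
  rw [h1]
  ring

theorem yq_add {τ : Matrix (Fin g) (Fin g) ℂ} (hτ : Siegel τ) (y q : Fin g → ℝ) :
    Yq τ (y + q) = Yq τ y + 2 * ∑ i, q i * Yv τ y i + Yq τ q := by
  rw [yq_eq, yq_eq, yq_eq]
  have h1 : ∑ i, (y + q) i * Yv τ (y + q) i =
      ∑ i, y i * Yv τ y i + ∑ i, y i * Yv τ q i + ∑ i, q i * Yv τ y i + ∑ i, q i * Yv τ q i := by
    rw [← Finset.sum_add_distrib, ← Finset.sum_add_distrib, ← Finset.sum_add_distrib]
    refine Finset.sum_congr rfl fun i _ => ?_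
    rw [yv_add, Pi.add_apply]
    ring
  rw [h1, yv_symm hτ y q]
  ring

theorem yq_two (τ : Matrix (Fin g) (Fin g) ℂ) (y : Fin g → ℝ) :
    Yq τ (fun i => 2 * y i) = 4 * Yq τ y := by
  simp only [Yq, Finset.mul_sum]
  refine Finset.sum_congr rfl fun i _ => Finset.sum_congr rfl fun j _ => ?_
  ring

/-- periodicity -/
theorem fc_per (tou : TouStatement) {τ : Matrix (Fin g) (Fin g) ℂ} (hτ : Siegel τ) (c : Ch g)
    (u y : Fin g → ℝ) (p q : Fin g → ℤ) :
    FC τ c (fun i => u i + (p i : ℝ)) (fun i => y i + (q i : ℝ)) = FC τ c u y := by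
  obtain ⟨-, -, -, hper, -, -⟩ := tou g τ hτ
  have h1 : xx τ (fun i => u i + (p i : ℝ)) (fun i => y i + (q i : ℝ)) =
      fun i => xx τ u y i + ((p i : ℂ) + ∑ j, τ i j * (q j : ℂ)) := by
    funext i
    simp only [xx]
    push_cast
    simp only [mul_add, Finset.sum_add_distrib]
    ring
  have h2 := hper c (xx τ u y) p q
  have h3 : Yq τ (fun i => y i + (q i : ℝ)) =
      Yq τ y + 2 * ∑ i, (q i : ℝ) * Yv τ y i + Yq τ (fun i => (q i : ℝ)) :=
    yq_add hτ y (fun i => (q i : ℝ))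
  have h4 : (-(2 * Real.pi * Complex.I * ∑ i, ∑ j, (q i : ℂ) * τ i j * (q j : ℂ))
          - 4 * Real.pi * Complex.I * ∑ i, (q i : ℂ) * xx τ u y i : ℂ).re =
      2 * Real.pi * Yq τ (fun i => (q i : ℝ)) + 4 * Real.pi * ∑ i, (q i : ℝ) * Yv τ y i := by
    have h5 : (∑ i, ∑ j, (q i : ℂ) * τ i j * (q j : ℂ) : ℂ).im = Yq τ (fun i => (q i : ℝ)) := by
      simp [Yq, Complex.im_sum, Complex.mul_im]
    have h6 : (∑ i, (q i : ℂ) * xx τ u y i : ℂ).im = ∑ i, (q i : ℝ) * Yv τ y i := by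
      rw [Complex.im_sum]
      refine Finset.sum_congr rfl fun i _ => ?_
      rw [Complex.mul_im, xx_im]
      simp
    rw [← h5, ← h6]
    simp
  unfold FC
  rw [h1, h2, h3, norm_mul, Complex.norm_exp, h4]
  rw [mul_comm (Real.exp _) _, mul_assoc, ← Real.exp_add]
  congr 2
  ring

theorem fc_cont (tdf : SZG.TdfStmt) {τ : Matrix (Fin g) (Fin g) ℂ} (hτ : Siegel τ) (c : Ch g) :
    Continuous (fun w : (Fin g → ℝ) × (Fin g → ℝ) => FC τ c w.1 w.2) := by
  unfold FC Thc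
  have h1 := (tdf g ((2 : ℂ) • τ) (SZG.H76.siegel_two hτ) (hv c)).continuous
  have h2 : Continuous (fun w : (Fin g → ℝ) × (Fin g → ℝ) => fun i => 2 * xx τ w.1 w.2 i) := by
    unfold xx
    fun_prop
  have h3 : Continuous (fun w : (Fin g → ℝ) × (Fin g → ℝ) => Yq τ w.2) := by
    unfold Yq
    fun_prop
  have h4 := h1.comp h2
  exact h4.norm.mul (Real.continuous_exp.comp (continuous_const.mul h3).neg)

/-- each function takes its maximum -/
theorem fc_max (tou : TouStatement) (tdf : SZG.TdfStmt) {τ : Matrix (Fin g) (Fin g) ℂ}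
    (hτ : Siegel τ) (c : Ch g) : ∃ m : (Fin g → ℝ) × (Fin g → ℝ), ∀ u y, FC τ c u y ≤ FC τ c m.1 m.2 := by
  have hK : IsCompact (Set.Icc (0 : (Fin g → ℝ) × (Fin g → ℝ)) 1) := isCompact_Icc
  obtain ⟨m, -, hm⟩ := hK.exists_isMaxOn (Set.nonempty_Icc.mpr zero_le_one)
    (fc_cont tdf hτ c).continuousOn
  refine ⟨m, fun u y => ?_⟩
  have h1 := fc_per tou hτ c u y (fun i => -⌊u i⌋) (fun i => -⌊y i⌋)
  rw [← h1]
  refine hm (a := ((fun i => u i + ((-⌊u i⌋ : ℤ) : ℝ)), (fun i => y i + ((-⌊y i⌋ : ℤ) : ℝ)))) ?_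
  have h2 : ∀ t : ℝ, 0 ≤ t + ((-⌊t⌋ : ℤ) : ℝ) ∧ t + ((-⌊t⌋ : ℤ) : ℝ) ≤ 1 := by
    intro t
    push_cast
    have h3 := Int.floor_le t
    have h4 := Int.lt_floor_add_one t
    constructor <;> linarith
  exact ⟨⟨fun i => (h2 (u i)).1, fun i => (h2 (y i)).1⟩,
    ⟨fun i => (h2 (u i)).2, fun i => (h2 (y i)).2⟩⟩

/-- the absolute value of the complex numbers -/
noncomputable def va : AbsoluteValue ℂ ℝ := NormedField.toAbsoluteValue ℂ

theorem va_apply (z : ℂ) : va z = ‖z‖ := rfl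

/-- duplication -/
theorem dup (tou : TouStatement) (lar : LarStatement) {τ : Matrix (Fin g) (Fin g) ℂ}
    (hτ : Siegel τ) (x : Fin g → ℂ) :
    (⨆ c : Ch g, ‖Thc τ c x‖) ^ 4 ≤ 4 ^ g * (⨆ c : Ch g, ‖Thc τ c (fun i => 2 * x i)‖) * t0 τ ^ 3 := by
  obtain ⟨hrr, -, -, -, -, -⟩ := tou g τ hτ
  refine lar ℂ va g (fun c => Thc τ c x) (fun c => Thc τ c (fun i => 2 * x i))
    (fun c => Thc τ c 0) (by rw [va_apply]; simp) fun b => ?_
  have e1 : ∑ c, (sgn b c : ℂ) * Thc τ c x ^ 2 = Vab τ 0 b x * Vab τ 0 b 0 := by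
    rw [hrr 0 b x 0]
    refine Finset.sum_congr rfl fun c _ => ?_
    simp only [zero_add, Pi.zero_apply, add_zero, sub_zero]
    ring
  have e2 : ∑ c, (sgn b c : ℂ) * (Thc τ c (fun i => 2 * x i) * Thc τ c 0) =
      Vab τ 0 b x * Vab τ 0 b x := by
    rw [hrr 0 b x x]
    refine Finset.sum_congr rfl fun c _ => ?_
    have h1 : (fun i => x i + x i) = fun i => 2 * x i := by
      funext i
      ring
    have h2 : (fun i => x i - x i) = (0 : Fin g → ℂ) := by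
      funext i
      simp
    rw [zero_add, h1, h2]
  have e3 : ∑ c, (sgn b c : ℂ) * Thc τ c 0 ^ 2 = Vab τ 0 b 0 * Vab τ 0 b 0 := by
    rw [hrr 0 b 0 0]
    refine Finset.sum_congr rfl fun c _ => ?_
    have h1 : (fun i : Fin g => (0 : Fin g → ℂ) i + (0 : Fin g → ℂ) i) = (0 : Fin g → ℂ) := by
      funext i
      simp
    have h2 : (fun i : Fin g => (0 : Fin g → ℂ) i - (0 : Fin g → ℂ) i) = (0 : Fin g → ℂ) := by
      funext i
      simp
    rw [zero_add, h1, h2]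
    ring
  rw [e1, e2, e3]
  ring

theorem sup (tou : TouStatement) (lar : LarStatement) (tdf : SZG.TdfStmt) : SupStmt := by
  intro g τ hτ a w y hy
  choose m hm using fc_max tou tdf hτ
  obtain ⟨c0, hc0⟩ := Finite.exists_max (fun c : Ch g => FC τ c (m c).1 (m c).2)
  set M := FC τ c0 (m c0).1 (m c0).2 with hM
  have hMb : ∀ c u y, FC τ c u y ≤ M := fun c u y => (hm c u y).trans (hc0 c)
  -- sup form
  have hbdd : ∀ x : Fin g → ℂ, BddAbove (Set.range fun c : Ch g => ‖Thc τ c x‖) :=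
    fun x => Set.Finite.bddAbove (Set.finite_range _)
  have ht0 : 0 < t0 τ := by
    obtain ⟨-, -, -, -, hne, -⟩ := tou g τ hτ
    obtain ⟨c, hc⟩ := hne 0
    exact (norm_pos_iff.mpr hc).trans_le (le_ciSup (hbdd 0) c)
  have hsup : ∀ u y, (⨆ c : Ch g, ‖Thc τ c (xx τ u y)‖) ≤ M * Real.exp (2 * Real.pi * Yq τ y) := by
    intro u y
    refine ciSup_le fun c => ?_
    have h1 := hMb c u y
    unfold FC at h1
    rw [Real.exp_neg, ← div_eq_mul_inv, div_le_iff₀ (Real.exp_pos _)] at h1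
    exact h1
  have hM0 : 0 ≤ M := by
    rw [hM]
    exact mul_nonneg (norm_nonneg _) (Real.exp_pos _).le
  have hM4 : M ^ 4 ≤ 4 ^ g * M * t0 τ ^ 3 := by
    set u0 := (m c0).1
    set y0 := (m c0).2
    have h1 := dup tou lar hτ (xx τ u0 y0)
    have h2 : (fun i => 2 * xx τ u0 y0 i) = xx τ (fun i => 2 * u0 i) (fun i => 2 * y0 i) := by
      funext i
      simp only [xx]
      push_cast
      rw [mul_add, Finset.mul_sum]
      congr 1
      refine Finset.sum_congr rfl fun j _ => ?_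
      ring
    rw [h2] at h1
    have h3 := hsup (fun i => 2 * u0 i) (fun i => 2 * y0 i)
    rw [yq_two] at h3
    have h4 : ‖Thc τ c0 (xx τ u0 y0)‖ ≤ ⨆ c : Ch g, ‖Thc τ c (xx τ u0 y0)‖ :=
      le_ciSup (hbdd _) c0
    have h5 : M = ‖Thc τ c0 (xx τ u0 y0)‖ * Real.exp (-(2 * Real.pi * Yq τ y0)) := rfl
    have h6 : M ^ 4 = ‖Thc τ c0 (xx τ u0 y0)‖ ^ 4 * Real.exp (-(8 * Real.pi * Yq τ y0)) := by
      rw [h5, mul_pow, ← Real.exp_nat_mul]
      congr 2
      push_cast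
      ring
    have h7 : ‖Thc τ c0 (xx τ u0 y0)‖ ^ 4 ≤
        4 ^ g * (M * Real.exp (2 * Real.pi * (4 * Yq τ y0))) * t0 τ ^ 3 := by
      calc ‖Thc τ c0 (xx τ u0 y0)‖ ^ 4 ≤ (⨆ c : Ch g, ‖Thc τ c (xx τ u0 y0)‖) ^ 4 :=
            pow_le_pow_left₀ (norm_nonneg _) h4 4
        _ ≤ _ := h1
        _ ≤ _ := by
            refine mul_le_mul_of_nonneg_right ?_ (pow_nonneg ht0.le 3)
            exact mul_le_mul_of_nonneg_left h3 (by positivity)
    calc M ^ 4 = ‖Thc τ c0 (xx τ u0 y0)‖ ^ 4 * Real.exp (-(8 * Real.pi * Yq τ y0)) := h6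
      _ ≤ (4 ^ g * (M * Real.exp (2 * Real.pi * (4 * Yq τ y0))) * t0 τ ^ 3) *
          Real.exp (-(8 * Real.pi * Yq τ y0)) :=
          mul_le_mul_of_nonneg_right h7 (Real.exp_pos _).le
      _ = 4 ^ g * M * t0 τ ^ 3 * (Real.exp (2 * Real.pi * (4 * Yq τ y0)) *
          Real.exp (-(8 * Real.pi * Yq τ y0))) := by ring
      _ = 4 ^ g * M * t0 τ ^ 3 := by
          rw [← Real.exp_add]
          have h8 : 2 * Real.pi * (4 * Yq τ y0) + -(8 * Real.pi * Yq τ y0) = 0 := by ring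
          rw [h8, Real.exp_zero, mul_one]
  have hMt : M ≤ 2 ^ g * t0 τ := by
    by_contra hcon
    push Not at hcon
    have hpos : 0 < 2 ^ g * t0 τ := by positivity
    have hMpos : 0 < M := hpos.trans hcon
    have h1 : (2 ^ g * t0 τ) ^ 3 < M ^ 3 := pow_lt_pow_left₀ hcon hpos.le (by norm_num)
    have h2 : M ^ 3 ≤ 4 ^ g * t0 τ ^ 3 := by
      have h3 : M ^ 3 * M ≤ 4 ^ g * t0 τ ^ 3 * M := by
        calc M ^ 3 * M = M ^ 4 := by ring
          _ ≤ _ := hM4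
          _ = _ := by ring
      exact le_of_mul_le_mul_right h3 hMpos
    have h4 : (4 : ℝ) ^ g * t0 τ ^ 3 ≤ (2 ^ g * t0 τ) ^ 3 := by
      rw [mul_pow, ← pow_mul, mul_comm g 3, pow_mul]
      refine mul_le_mul_of_nonneg_right ?_ (pow_nonneg ht0.le 3)
      exact pow_le_pow_left₀ (by norm_num) (by norm_num) g
    linarith
  -- conclusion
  set u : Fin g → ℝ := fun i => (w i).re - ∑ j, (τ i j).re * y j
  have hw : w = xx τ u y := by
    funext i
    apply Complex.ext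
    · simp [xx, u, Complex.re_sum, Complex.mul_re]
    · rw [xx_im, hy]
  have h2 : (fun i => 2 * w i) = xx τ (fun i => 2 * u i) (fun i => 2 * y i) := by
    funext i
    rw [hw]
    simp only [xx]
    push_cast
    rw [mul_add, Finset.mul_sum]
    congr 1
    refine Finset.sum_congr rfl fun j _ => ?_
    ring
  rw [h2]
  have h3 := hsup (fun i => 2 * u i) (fun i => 2 * y i)
  rw [yq_two] at h3
  calc ‖Thc τ a (xx τ (fun i => 2 * u i) (fun i => 2 * y i))‖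
      ≤ ⨆ c : Ch g, ‖Thc τ c (xx τ (fun i => 2 * u i) (fun i => 2 * y i))‖ := le_ciSup (hbdd _) a
    _ ≤ _ := h3
    _ ≤ 2 ^ g * t0 τ * Real.exp (2 * Real.pi * (4 * Yq τ y)) :=
        mul_le_mul_of_nonneg_right hMt (Real.exp_pos _).le
    _ = _ := by
        congr 2
        ring

end Pool.Agent.ARC.H25
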